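import Pool.Agent.Y706.CH.Stm7

/-!
# Project CH: large critical height and finite extensions
-/

set_option autoImplicit false
set_option linter.all false
set_option synthInstance.maxHeartbeats 400000

namespace Pool.Agent.Y833.CH

open Pool.Agent.W277.UH Pool.Agent.Y706.CH7 Polynomial

universe u v w

section maps

variable {k : Type v} {M : Type u} {T : Type u} [Field k] [Field M] [Field T] [Algebra k M]
  [Algebra k T]

theorem wr_map (j : M →+* T) (u w : M[X]) :
    derivative (u.map j) * w.map j - u.map j * derivative (w.map j) =
      (derivative u * w - u * derivative w).map j := by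
  simp only [Polynomial.map_sub, Polynomial.map_mul, Polynomial.derivative_map]

theorem crit_map (j : M →+* T) {u w : M[X]} {d : ℕ} {c : Option M} (h : IsCritical u w d c) :
    IsCritical (u.map j) (w.map j) d (c.map j) := by
  cases c with
  | none =>
    show (derivative (u.map j) * w.map j - u.map j * derivative (w.map j)).coeff (2 * d - 2) = 0
    rw [wr_map, coeff_map]
    have h' : (derivative u * w - u * derivative w).coeff (2 * d - 2) = 0 := h
    rw [h', map_zero]
  | some x =>
    show (derivative (u.map j) * w.map j - u.map j * derivative (w.map j)).eval (j x) = 0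
    rw [wr_map, eval_map, eval₂_hom]
    have h' : (derivative u * w - u * derivative w).eval x = 0 := h
    rw [h', map_zero]

theorem conj_map (j : M →+* T) {p q u w : M[X]} {d : ℕ} (h : Conjugate p q u w d) :
    Conjugate (p.map j) (q.map j) (u.map j) (w.map j) d := by
  obtain ⟨a, b, c, e, hdet, s, hs, h1, h2⟩ := h
  refine ⟨j a, j b, j c, j e, ?_, j s, (map_ne_zero j).2 hs, ?_, ?_⟩
  · rw [← map_mul, ← map_mul, ← map_sub]
    exact (map_ne_zero j).2 hdet
  · have := congrArg (Polynomial.map j) h1
    simpa [Polynomial.map_sum] using this
  · have := congrArg (Polynomial.map j) h2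
    simpa [Polynomial.map_sum] using this

theorem p1_map (T' : M →+* T) (p q : Polynomial M) (d : ℕ) (z : Option M) :
    ratP1 (p.map T') (q.map T') d (z.map T') = (ratP1 p q d z).map T' := by
  cases z with
  | none =>
    by_cases h : q.coeff d = 0
    · rw [ratP1_none0 p q d h]
      show ratP1 (p.map T') (q.map T') d none = none
      rw [ratP1_none0]
      rw [Polynomial.coeff_map, h, map_zero]
    · rw [ratP1_none p q d h]
      show ratP1 (p.map T') (q.map T') d none = some _
      rw [ratP1_none]
      · rw [Polynomial.coeff_map, Polynomial.coeff_map, map_div₀]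
      · rw [Polynomial.coeff_map]
        exact (map_ne_zero T').2 h
  | some x =>
    have hx : ∀ g : Polynomial M, (g.map T').eval (T' x) = T' (g.eval x) := fun g => by
      rw [Polynomial.eval_map, Polynomial.eval₂_hom]
    by_cases h : q.eval x = 0
    · rw [ratP1_some0 p q d x h]
      show ratP1 (p.map T') (q.map T') d (some (T' x)) = none
      rw [ratP1_some0]
      rw [hx, h, map_zero]
    · rw [ratP1_some p q d x h]
      show ratP1 (p.map T') (q.map T') d (some (T' x)) = some _
      rw [ratP1_some]
      · rw [hx, hx, map_div₀]
      · rw [hx]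
        exact (map_ne_zero T').2 h

theorem iter_map (j : M →+* T) (p q : Polynomial M) (d : ℕ) (z : Option M) (m : ℕ) :
    (ratP1 (p.map j) (q.map j) d)^[m] (z.map j) = ((ratP1 p q d)^[m] z).map j := by
  induction m with
  | zero => rfl
  | succ m ih => rw [Function.iterate_succ_apply', ih, p1_map, Function.iterate_succ_apply']

theorem height_map (j : M →+* T) {a : ℕ}
    (hj : ∀ x : M, Module.finrank (IntermediateField.adjoin k {j x}) T =
      Module.finrank (IntermediateField.adjoin k {x}) M * a) (z : Option M) :
    height k (z.map j) = height k z * a := by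
  cases z with
  | none => exact (zero_mul a).symm
  | some x => exact hj x

theorem mapHeight_map (j : M →+* T) {a : ℕ}
    (hj : ∀ x : M, Module.finrank (IntermediateField.adjoin k {j x}) T =
      Module.finrank (IntermediateField.adjoin k {x}) M * a) (u w : M[X]) (d : ℕ) :
    mapHeight k (u.map j) (w.map j) d = mapHeight k u w d * a := by
  have hmono : Monotone fun x : ℕ => x * a := fun x y h => Nat.mul_le_mul_right a h
  unfold mapHeight
  rw [Finset.apply_sup_eq_sup_comp (fun x : ℕ => x * a) (fun x y => hmono.map_max)
    (zero_mul a)]
  refine Finset.sup_congr rfl fun i _ => ?_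
  show _ = max (height k (some (u.coeff i))) (height k (some (w.coeff i))) * a
  have h3 : max (height k (some (u.coeff i))) (height k (some (w.coeff i))) * a =
    max (height k (some (u.coeff i)) * a) (height k (some (w.coeff i)) * a) := hmono.map_max
  rw [coeff_map, coeff_map, h3]
  have h1 := height_map (k := k) j hj (some (u.coeff i))
  have h2 := height_map (k := k) j hj (some (w.coeff i))
  rw [Option.map_some] at h1 h2
  rw [h1, h2]

theorem canHeight_map (j : M →+* T) {a : ℕ}
    (hj : ∀ x : M, Module.finrank (IntermediateField.adjoin k {j x}) T =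
      Module.finrank (IntermediateField.adjoin k {x}) M * a) (u w : M[X]) (d : ℕ) (c : Option M) :
    canHeight k (u.map j) (w.map j) d (c.map j) = (a : ENNReal) * canHeight k u w d c := by
  unfold canHeight
  rw [← ENNReal.limsup_const_mul_of_ne_top (ENNReal.natCast_ne_top a)]
  congr 1
  funext m
  rw [iter_map, height_map (k := k) j hj, Nat.cast_mul, mul_comm, mul_div_assoc]

end maps

theorem t_EXT (hH : ∀ (k : Type v) (E L : Type u) [Field k] [Field E] [Field L]
    [Algebra k E] [Algebra E L] [Algebra k L] [IsScalarTower k E L] [FiniteDimensional E L]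
    (x : E), Module.finrank (IntermediateField.adjoin k {algebraMap E L x}) L =
      Module.finrank (IntermediateField.adjoin k {x}) E * Module.finrank E L) :
    S_EXT.{u, v} := by
  intro k L _ _ _ p q d B h E hE
  obtain ⟨M, iM, ikM, iLM, hst, hfd, hB, u, w, hcop, hdeg, hconj, hspl, c, hcrit, hpos, hle⟩ := h
  haveI : Algebra.IsAlgebraic L M := Algebra.IsAlgebraic.of_finite L M
  let σ : M →ₐ[L] AlgebraicClosure L := IsAlgClosed.lift
  have hSe : Nonempty (M ≃ₗ[L] σ.fieldRange) := ⟨LinearEquiv.ofInjective σ.toLinearMap σ.injective⟩
  obtain ⟨eS⟩ := hSe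
  haveI : FiniteDimensional L σ.fieldRange := eS.finiteDimensional
  have hS : Module.finrank L σ.fieldRange = Module.finrank L M := eS.finrank_eq.symm
  let T : IntermediateField L (AlgebraicClosure L) := σ.fieldRange ⊔ E
  haveI hT : FiniteDimensional L T := IntermediateField.finiteDimensional_sup _ _
  have hTle : Module.finrank L T ≤ Module.finrank L M * Module.finrank L E := by
    rw [← hS]
    exact IntermediateField.finrank_sup_le _ _
  letI iET : Algebra E T :=
    (IntermediateField.inclusion (le_sup_right : E ≤ σ.fieldRange ⊔ E)).toRingHom.toAlgebra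
  haveI s1 : IsScalarTower L E T := IsScalarTower.of_algebraMap_eq fun x => Subtype.ext rfl
  haveI s2 : IsScalarTower k E T := IsScalarTower.of_algebraMap_eq fun x => Subtype.ext rfl
  have hmem : ∀ x, (σ : M →+* AlgebraicClosure L) x ∈ T := fun x =>
    (le_sup_left : σ.fieldRange ≤ σ.fieldRange ⊔ E) ⟨x, rfl⟩
  let j : M →+* T := (σ : M →+* AlgebraicClosure L).codRestrict T hmem
  letI iMT : Algebra M T := j.toAlgebra
  haveI s3 : IsScalarTower L M T := IsScalarTower.of_algebraMap_eq fun x =>
    Subtype.ext (σ.commutes x).symm
  haveI s4 : IsScalarTower k M T := IsScalarTower.of_algebraMap_eq fun x => Subtype.ext (by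
    show algebraMap k (AlgebraicClosure L) x = σ (algebraMap k M x)
    rw [IsScalarTower.algebraMap_apply k L M, σ.commutes,
      ← IsScalarTower.algebraMap_apply k L (AlgebraicClosure L)])
  haveI g1 : Module.Free E T := Module.Free.of_divisionRing E T
  haveI g2 : Module.Free L E := Module.Free.of_divisionRing L E
  haveI g3 : Module.Free M T := Module.Free.of_divisionRing M T
  haveI f1 : FiniteDimensional M T := FiniteDimensional.right L M T
  haveI f2 : FiniteDimensional E T := FiniteDimensional.right L E T
  have hfin : Module.finrank E T ≤ B := by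
    have h1 := Module.finrank_mul_finrank L E T
    have h2 : 0 < Module.finrank L E := Module.finrank_pos
    have h3 : Module.finrank L E * Module.finrank E T ≤
        Module.finrank L E * Module.finrank L M := by
      rw [h1, mul_comm (Module.finrank L E)]
      exact hTle
    exact (Nat.le_of_mul_le_mul_left h3 h2).trans hB
  set a := Module.finrank M T with ha
  have ha0 : 0 < a := Module.finrank_pos
  have hj : ∀ x : M, Module.finrank (IntermediateField.adjoin k {j x}) T =
      Module.finrank (IntermediateField.adjoin k {x}) M * a := fun x => hH k M T x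
  have hpq : ∀ r : L[X], (r.map (algebraMap L E)).map (algebraMap E T) =
      (r.map (algebraMap L M)).map j := by
    intro r
    rw [Polynomial.map_map, Polynomial.map_map]
    congr 1
    exact RingHom.ext fun x => Subtype.ext (σ.commutes x).symm
  refine ⟨T, inferInstance, inferInstance, iET, s2, f2, hfin, u.map j, w.map j, ?_, ?_, ?_, ?_,
    c.map j, crit_map j hcrit, ?_, ?_⟩
  · exact (Polynomial.isCoprime_map j).2 hcop
  · rw [Polynomial.natDegree_map, Polynomial.natDegree_map, hdeg]
  · rw [hpq, hpq]
    exact conj_map j hconj
  · rw [wr_map]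
    exact hspl.map j
  · rw [mapHeight_map j hj]
    exact Nat.mul_pos hpos ha0
  · rw [mapHeight_map j hj, canHeight_map j hj, Nat.cast_mul]
    calc (mapHeight k u w d : ENNReal) * (a : ENNReal) ≤ (B * canHeight k u w d c) * a := by
          gcongr
      _ = B * (a * canHeight k u w d c) := by ring

end Pool.Agent.Y833.CH
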